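import Pool.Agent.H18.KR.TFin

/-!
# MP_bd45e0_lc, Q1 (KRON in `#P`), for triples with a partition with at most two rows or at most
two columns

The definitions used by the statement are in `Pool/Agent/H18/KR/Defs.lean` (`fixc`, `sh`, `chi`, `kron`),
`Pool/Agent/H18/KR/Defs5.lean` (`IsPart`, `two`, `InSharpP`), `Pool/Agent/H18/KR/Defs7.lean` (`twoC`,
`thin`), `Pool/Agent/H80/Poly/Basic.lean` (the bit encodings `BEnc`, `enc`), and `IsInput` below.
-/

set_option autoImplicit false

namespace Pool.Agent.Results.MP_bd45e0_lc.ThinKronecker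

open Pool.Agent.H18.KR Pool.Agent.H80.Poly

/-- `(N, l, lam, mu, nu)` is an input of KRON: three partitions of `n` with `l` entries (zeros at the
end are allowed), all of them at most `N` -/
def IsInput (N l n : ℕ) (lam mu nu : List ℕ) : Prop :=
  (lam.length = l ∧ mu.length = l ∧ nu.length = l) ∧
  ((∀ a ∈ lam, a ≤ N) ∧ (∀ a ∈ mu, a ≤ N) ∧ (∀ a ∈ nu, a ≤ N)) ∧
  (IsPart n lam ∧ IsPart n mu ∧ IsPart n nu)

/-- the format conditions -/
def Fmt (x : ℕ × ℕ × List ℕ × List ℕ × List ℕ) : Prop :=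
  (x.2.2.1.length = x.2.1 ∧ x.2.2.2.1.length = x.2.1 ∧ x.2.2.2.2.length = x.2.1) ∧
  ((∀ a ∈ x.2.2.1, a ≤ x.1) ∧ (∀ a ∈ x.2.2.2.1, a ≤ x.1) ∧ (∀ a ∈ x.2.2.2.2, a ≤ x.1))

instance (x : ℕ × ℕ × List ℕ × List ℕ × List ℕ) : Decidable (Fmt x) := by
  unfold Fmt; infer_instance

/-- the triple with a two-rowed partition if the format is right, an invalid triple otherwise -/
def tr (x : ℕ × ℕ × List ℕ × List ℕ × List ℕ) : Inp :=
  if Fmt x then tc (2 * size x) x.2.2 else ([1], [], [])

theorem not_valid : ¬ Valid ([1], [], []) := by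
  unfold Valid IsPart
  simp

theorem gk_bad : gk ([1], [], []) = 0 := by
  unfold gk
  rw [if_neg not_valid]

theorem ptTr : PolyTime tr := by
  have hx : PolyTime (fun x : ℕ × ℕ × List ℕ × List ℕ × List ℕ => x) := PolyTime.id
  have hl : ∀ {l : ℕ × ℕ × List ℕ × List ℕ × List ℕ → List ℕ}, PolyTime l →
      PolyTime (fun x => decide ((l x).length = x.2.1)) := fun h =>
    PolyTime.eq (PolyTime.length h) hx.snd.fst
  have ha : ∀ {l : ℕ × ℕ × List ℕ × List ℕ × List ℕ → List ℕ}, PolyTime l →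
      PolyTime (fun x => decide (∀ a ∈ l x, a ≤ x.1)) := fun h => by
    have hw : PolyTime (fun w : (ℕ × ℕ × List ℕ × List ℕ × List ℕ) × ℕ => w) := PolyTime.id
    exact PolyTime.forallMem (P := fun x a => a ≤ x.1) h (PolyTime.le hw.snd hw.fst.fst)
  have h1 := hx.snd.snd.fst
  have h2 := hx.snd.snd.snd.fst
  have h3 := hx.snd.snd.snd.snd
  have hF : PolyTime (fun x => decide (Fmt x)) :=
    PolyTime.congr (PolyTime.decAnd (PolyTime.decAnd (hl h1) (PolyTime.decAnd (hl h2) (hl h3)))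
      (PolyTime.decAnd (ha h1) (PolyTime.decAnd (ha h2) (ha h3)))) (fun x => by
        unfold Fmt
        rfl)
  have hM : PolyTime (fun x : ℕ × ℕ × List ℕ × List ℕ × List ℕ => 2 * size x) :=
    (PolyTime.const 2).mul PolyTime.sizeU.unatToNat
  exact PolyTime.ite hF (ptTc hM ⟨fun n => 2 * n, (PB.const 2).mul PB.id, fun _ => le_rfl⟩
    hx.snd.snd) (PolyTime.const _)

/-- **KRON restricted to triples with a partition with at most two rows or at most two columns is
in `#P`.** -/
theorem result : ∃ f : ℕ × ℕ × List ℕ × List ℕ × List ℕ → ℕ, InSharpP f ∧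
    (∀ (N l n : ℕ) (lam mu nu : List ℕ), IsInput N l n lam mu nu →
      (thin lam ∨ thin mu ∨ thin nu) →
      (f (N, l, lam, mu, nu) : ℚ) = kron n lam.get mu.get nu.get) ∧
    ∀ (N l : ℕ) (lam mu nu : List ℕ),
      (¬ ∃ n, IsInput N l n lam mu nu ∧ (thin lam ∨ thin mu ∨ thin nu)) →
      f (N, l, lam, mu, nu) = 0 := by
  refine ⟨fun x => gk (tr x), sharpP_comp tr ptTr, ?_, ?_⟩
  · intro N l n lam mu nu h h2
    have hF : Fmt (N, l, lam, mu, nu) := ⟨h.1, h.2.1⟩
    have hn : lam.sum = n := h.2.2.1.2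
    have hV : ValidT (lam, mu, nu) := by
      unfold ValidT
      simp only
      rw [hn]
      exact ⟨h.2.2.1, h.2.2.2.1, h.2.2.2.2, h2⟩
    have ht : tr (N, l, lam, mu, nu) = tc (2 * size (N, l, lam, mu, nu)) (lam, mu, nu) := by
      unfold tr
      rw [if_pos hF]
    have hs : size ((lam, mu, nu) : Inp) ≤ size (N, l, lam, mu, nu) := by
      have h1 := size_pair N (l, lam, mu, nu)
      have h2 := size_pair l (lam, mu, nu)
      omega
    simp only [ht]
    rw [tc_eq _ _ hV (Nat.mul_le_mul_left 2 hs)]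
    simp only [hn]
    rfl
  · intro N l lam mu nu h
    simp only
    by_cases hF : Fmt (N, l, lam, mu, nu)
    · have ht : tr (N, l, lam, mu, nu) = tc (2 * size (N, l, lam, mu, nu)) (lam, mu, nu) := by
        unfold tr
        rw [if_pos hF]
      rw [ht]
      apply tc_zero
      intro hV
      exact h ⟨lam.sum, ⟨hF.1, hF.2, hV.1, hV.2.1, hV.2.2.1⟩, hV.2.2.2⟩
    · have ht : tr (N, l, lam, mu, nu) = ([1], [], []) := by
        unfold tr
        rw [if_neg hF]
      rw [ht, gk_bad]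

end Pool.Agent.Results.MP_bd45e0_lc.ThinKronecker
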